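import Mathlib
import Pool.Agent.Q90.DimOne
import Pool.Agent.Q90.OpenMul

/-!
# Multiplication in `C(X, ℂ)` is uniformly open for one-dimensional compact `X`
-/

set_option autoImplicit false

open Set Filter Topology Metric Pointwise

namespace Pool.Agent.Results.MP_64150f_an.OpenMultiplication

/-- `dim X ≤ n` for the Lebesgue covering dimension: every finite open cover of `X` has a finite
open refinement (covering `X`) such that every point lies in at most `n + 1` of its members. -/
def CoveringDimLE (X : Type*) [TopologicalSpace X] (n : ℕ) : Prop :=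
  ∀ (m : ℕ) (U : Fin m → Set X), (∀ i, IsOpen (U i)) → ⋃ i, U i = univ →
    ∃ (k : ℕ) (V : Fin k → Set X), (∀ j, IsOpen (V j)) ∧ ⋃ j, V j = univ ∧
      (∀ j, ∃ i, V j ⊆ U i) ∧ ∀ x, {j | x ∈ V j}.ncard ≤ n + 1

/-- Multiplication in the Banach algebra `A` is open, as a map `A × A → A`. -/
def MulOpen (A : Type*) [NormedRing A] : Prop := IsOpenMap fun p : A × A => p.1 * p.2

/-- Multiplication in the Banach algebra `A` is uniformly open: for every `ε > 0` there is `δ > 0`
such that `B(ab, δ) ⊆ B(a, ε) · B(b, ε)` for all `a`, `b` in the closed unit ball of `A`. -/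
def MulUniformlyOpen (A : Type*) [NormedRing A] : Prop :=
  ∀ ε > 0, ∃ δ > 0, ∀ a b : A, ‖a‖ ≤ 1 → ‖b‖ ≤ 1 → ball (a * b) δ ⊆ ball a ε * ball b ε

/-- **Multiplication in `C(X, ℂ)` is uniformly open for one-dimensional compact `X`** (positive
answer to Q1 and Q2).

Let `X` be a compact Hausdorff space with covering dimension `dim X ≤ 1` (in particular, any
one-dimensional compact Hausdorff space). Then multiplication in the complex Banach algebra `C(X)`
is open, and it is uniformly open. More precisely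
`B(ab, ε² / 72) ⊆ B(a, ε) · B(b, ε)` for all `a`, `b` in `C(X)` (of any norm) and all `ε > 0`. -/
theorem result (X : Type*) [TopologicalSpace X] [CompactSpace X] [T2Space X]
    (hX : CoveringDimLE X 1) :
    MulOpen C(X, ℂ) ∧ MulUniformlyOpen C(X, ℂ) ∧
      ∀ (a b : C(X, ℂ)) (ε : ℝ), 0 < ε → ball (a * b) (ε ^ 2 / 72) ⊆ ball a ε * ball b ε := by
  have hd : Q90.OpenMul.DenseNV X := fun f ε hε => Q90.DimOne.exists_nonvanishing hX f hε
  have main : ∀ (a b : C(X, ℂ)) (ε : ℝ), 0 < ε →
      ball (a * b) (ε ^ 2 / 72) ⊆ ball a ε * ball b ε := by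
    intro a b ε hε h hh
    rw [mem_ball, dist_eq_norm] at hh
    obtain ⟨f, g, hfg, hf, hg⟩ := Q90.OpenMul.main hd a b h hε hh
    refine ⟨f, ?_, g, ?_, hfg⟩
    · rw [mem_ball, dist_eq_norm]
      exact hf
    · rw [mem_ball, dist_eq_norm]
      exact hg
  refine ⟨?_, fun ε hε => ⟨ε ^ 2 / 72, by positivity, fun a b _ _ => main a b ε hε⟩, main⟩
  intro U hU
  rw [Metric.isOpen_iff]
  rintro _ ⟨⟨a, b⟩, hab, rfl⟩
  obtain ⟨ε, hε, hεU⟩ := Metric.isOpen_iff.1 hU (a, b) hab
  refine ⟨ε ^ 2 / 72, by positivity, fun h hh => ?_⟩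
  obtain ⟨f, hf, g, hg, hfg⟩ := main a b ε hε hh
  refine ⟨(f, g), hεU ?_, hfg⟩
  rw [← ball_prod_same]
  exact ⟨hf, hg⟩

end Pool.Agent.Results.MP_64150f_an.OpenMultiplication
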